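import Mathlib
import Pool.Agent.W672.FK.Lowf
import Pool.Agent.W307.RT.Tors
import Pool.Agent.Y679.Cr.Conv
import Pool.Agent.Y679.Cr.Mom

/-!
# Ranks and Tate-Shafarevich groups of all the curves with full rational 2-torsion, by conductor

All elliptic curves `E` over `ℚ` with full rational 2-torsion ordered by the conductor, without any
bound on the height or on the discriminant. The average rank is bounded; more precisely for
`0 < θ < 2 / 3` the average of `(2 ^ rank * #Ш[2 ^ k] ^ (1 / k)) ^ θ` is bounded, uniformly in `k`, and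
at most the proportion `C 2 ^ (-θ r)` of the curves has `rank + corank Ш[2 ^ ∞] ≥ r`. Off a set of
curves of density zero all the moments are bounded, and the upper density of the curves with
`rank + corank Ш[2 ^ ∞] ≥ r` is `o (A ^ (-r))` for every `A`.
-/

namespace Pool.Agent.Results.MP_157626_nt.AverageByConductor

open Finset Filter Topology

open Pool.Agent.TH841.SH.D (Sha ShaTor HasDiv rk)

/-- the curve `y² = x³ + A x + B` over `ℚ` -/
def E (c : ℤ × ℤ) : WeierstrassCurve ℚ := ⟨0, 0, 0, (c.1 : ℚ), (c.2 : ℚ)⟩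

/-- the Mordell-Weil rank -/
noncomputable def rank (c : ℤ × ℤ) : ℕ := Module.finrank ℤ (E c).toAffine.Point

/-- The prime-to-6 part of the conductor of `y² = x³ + A x + B` (there is no prime `p` with `p⁴ ∣ A`
and `p⁶ ∣ B`): the product over the primes `p ≥ 5` dividing `4 A³ + 27 B²` of `p` (multiplicative
reduction: `p ∤ A`) or `p²` (additive reduction: `p ∣ A`) -/
def Cond6 (c : ℤ × ℤ) : ℕ :=
  ∏ p ∈ (Int.natAbs (4 * c.1 ^ 3 + 27 * c.2 ^ 2)).primeFactors.filter (fun p => 5 ≤ p),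
    if (p : ℤ) ∣ c.1 then p ^ 2 else p

/-- the admissible factors: functions with values between `1` and `2 ^ 8 * 3 ^ 5`, for instance the
part of the conductor composed of the primes 2 and 3, or `f = 1` -/
def Factor (f : ℤ × ℤ → ℕ) : Prop := ∀ c, 1 ≤ f c ∧ f c ≤ 2 ^ 8 * 3 ^ 5

/-- The pairs `(A, B)` of integers such that `4 A³ + 27 B² ≠ 0`, there is no prime `p` with
`p⁴ ∣ A` and `p⁶ ∣ B`, `Z/2 x Z/2` embeds in the group of the rational points of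
`y² = x³ + A x + B`, and `f * Cond6 ≤ Z` (for a suitable factor `f`: the conductor is at most `Z`).
Every elliptic curve over `ℚ` with full rational 2-torsion is isomorphic to `E` of exactly one pair
with the first three properties. -/
def Fam (f : ℤ × ℤ → ℕ) (Z : ℕ) : Set (ℤ × ℤ) :=
  {c : ℤ × ℤ | 4 * c.1 ^ 3 + 27 * c.2 ^ 2 ≠ 0 ∧
    (∀ p : ℕ, p.Prime → ¬ ((p : ℤ) ^ 4 ∣ c.1 ∧ (p : ℤ) ^ 6 ∣ c.2)) ∧
    (∃ g : ZMod 2 × ZMod 2 →+ (E c).toAffine.Point, Function.Injective g) ∧ f c * Cond6 c ≤ Z}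

/-- the proportion of the curves of `S` in the family -/
noncomputable def proportion (f : ℤ × ℤ → ℕ) (S : Set (ℤ × ℤ)) (Z : ℕ) : ℝ :=
  ((Fam f Z ∩ S).ncard : ℝ) / (Fam f Z).ncard

/-- the weight `2 ^ rank * #Ш[2 ^ k] ^ (1 / k)` -/
noncomputable def weight (k : ℕ) (c : ℤ × ℤ) : ℝ :=
  (2 : ℝ) ^ rank c * (Nat.card (ShaTor (E c) (2 ^ k)) : ℝ) ^ ((1 : ℝ) / k)

/-- the curves with `rank + corank Ш[2 ^ ∞] ≥ r`: `Ш` has a subgroup `(ℚ₂ / ℤ₂) ^ m` with
`r ≤ rank + m` -/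
def High (r : ℕ) : Set (ℤ × ℤ) := {c | ∃ m : ℕ, HasDiv (E c) m ∧ r ≤ rank c + m}

/-- the property without the size -/
def Pr (c : ℤ × ℤ) : Prop := 4 * c.1 ^ 3 + 27 * c.2 ^ 2 ≠ 0 ∧
    (∀ p : ℕ, p.Prime → ¬ ((p : ℤ) ^ 4 ∣ c.1 ∧ (p : ℤ) ^ 6 ∣ c.2)) ∧
    (∃ g : ZMod 2 × ZMod 2 →+ (E c).toAffine.Point, Function.Injective g)

lemma good : Pool.Agent.Y679.Cr.Good Pr := by
  classical
  refine ⟨fun c hc => ⟨?_, ?_⟩, fun H c hc => ?_, Pool.Agent.W672.FK.lowf⟩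
  · exact Pool.Agent.Y679.Cr.isMin_of hc.1 hc.2.1
  · exact Pool.Agent.Y679.Cr.full_of (Pool.Agent.W307.RT.tors_iff.2 hc.2.2)
  · unfold Pool.Agent.W307.RT.Cv at hc
    obtain ⟨-, h1, -, -, h2, h3⟩ := mem_filter.1 hc
    exact ⟨h1, h2, Pool.Agent.W307.RT.tors_iff.1 h3⟩

lemma cond_eq (c : ℤ × ℤ) : Pool.Agent.Y679.Cr.cs c = Cond6 c := by
  unfold Pool.Agent.Y679.Cr.cs Pool.Agent.H925R.Szpiro.condS Cond6
  rw [Pool.Agent.Y679.Cr.D_neg, Int.natAbs_neg]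
  refine prod_congr rfl fun p _ => ?_
  by_cases h : (p : ℤ) ∣ c.1
  · rw [if_pos h, if_pos (Int.dvd_neg.2 h)]
  · rw [if_neg h, if_neg fun h' => h (Int.dvd_neg.1 h')]

lemma bdd {f : ℤ × ℤ → ℕ} (hf : Factor f) : Pool.Agent.Y679.Cr.Bdd f :=
  fun c => ⟨(hf c).1, (hf c).2.trans (by norm_num)⟩

lemma Fam_eq (f : ℤ × ℤ → ℕ) (Z : ℕ) : Fam f Z = Pool.Agent.Y679.Cr.Gm Pr f Z := by
  ext c
  unfold Fam Pool.Agent.Y679.Cr.Gm
  rw [Set.mem_ofPred_eq, Set.mem_ofPred_eq, cond_eq]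
  exact ⟨fun h => ⟨⟨h.1, h.2.1, h.2.2.1⟩, h.2.2.2⟩, fun h => ⟨h.1.1, h.1.2.1, h.1.2.2, h.2⟩⟩

/-- **Theorem.** Order the elliptic curves over `ℚ` with full rational 2-torsion by the conductor
(times an arbitrary factor as in `Factor`), with no bound on the height or on the discriminant.
(1) There are finitely many curves of size at most `Z`, and for large `Z` their number is between
`c Z ^ (2/3)` and `C Z ^ (2/3)`.
(2) The average rank of the curves of size at most `Z` is at most `C`, for all `Z`.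
(3) The groups `Ш[2 ^ k]` are finite, and for `0 < θ < 2 / 3` the average of
`(2 ^ rank * #Ш[2 ^ k] ^ (1 / k)) ^ θ` over the curves of size at most `Z` is at most `C`, for all `Z`
and `k ≥ 1`; the proportion of the curves with `rank + corank Ш[2 ^ ∞] ≥ r` is at most
`C 2 ^ (-θ r)`, for all `Z` and `r`.
(4) There is a set `X` of curves of density zero such that for every real `θ > 0` and all `Z` and
`k ≥ 1` the sum of `(2 ^ rank * #Ш[2 ^ k] ^ (1 / k)) ^ θ` over the curves of size at most `Z` outside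
`X` is at most `C` times the number of all the curves of size at most `Z`; for every real `A` the
upper density of the curves with `rank + corank Ш[2 ^ ∞] ≥ r`, times `A ^ r`, tends to `0` as
`r → ∞`. -/
theorem result :
    (∃ c C : ℝ, 0 < c ∧ ∀ f : ℤ × ℤ → ℕ, Factor f → (∀ Z : ℕ, (Fam f Z).Finite) ∧
      ∀ᶠ Z : ℕ in atTop, c * (Z : ℝ) ^ ((2 : ℝ) / 3) ≤ ((Fam f Z).ncard : ℝ) ∧
        ((Fam f Z).ncard : ℝ) ≤ C * (Z : ℝ) ^ ((2 : ℝ) / 3)) ∧
    (∃ C : ℝ, ∀ f : ℤ × ℤ → ℕ, Factor f → ∀ (Z : ℕ) (S : Finset (ℤ × ℤ)),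
      (S : Set (ℤ × ℤ)) = Fam f Z → ∑ c ∈ S, (rank c : ℝ) ≤ C * S.card) ∧
    (∀ θ : ℝ, 0 < θ → θ < 2 / 3 → ∃ C : ℝ, ∀ f : ℤ × ℤ → ℕ, Factor f → ∀ Z : ℕ,
      (∀ c ∈ Fam f Z, ∀ k : ℕ, Finite (ShaTor (E c) (2 ^ k))) ∧
      (∀ (k : ℕ) (S : Finset (ℤ × ℤ)), 1 ≤ k → (S : Set (ℤ × ℤ)) = Fam f Z →
        ∑ c ∈ S, weight k c ^ θ ≤ C * S.card) ∧
      ∀ r : ℕ, proportion f (High r) Z ≤ C * (2 : ℝ) ^ (-(θ * r))) ∧
    ∃ X : Set (ℤ × ℤ), ∀ f : ℤ × ℤ → ℕ, Factor f →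
      Tendsto (proportion f X) atTop (𝓝 0) ∧
      (∀ θ : ℝ, 0 < θ → ∃ C : ℝ, ∀ (Z k : ℕ) (S : Finset (ℤ × ℤ)), 1 ≤ k →
        (S : Set (ℤ × ℤ)) = Fam f Z \ X →
        ∑ c ∈ S, weight k c ^ θ ≤ C * ((Fam f Z).ncard : ℝ)) ∧
      ∀ A : ℝ, Tendsto (fun r : ℕ => A ^ r * limsup (proportion f (High r)) atTop) atTop
        (𝓝 0) := by
  obtain ⟨X, hX⟩ := Pool.Agent.Y679.Cr.tails good
  refine ⟨?_, ?_, fun θ hθ0 hθ => ?_, X, fun f hf => ?_⟩
  · obtain ⟨c, Z0, hc, g1⟩ := Pool.Agent.Y679.Cr.Gm_ge good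
    obtain ⟨C, Z1, -, g2⟩ := Pool.Agent.Y679.Cr.Gm_up good
    refine ⟨c, C, hc, fun f hf => ⟨fun Z => ?_, ?_⟩⟩
    · rw [Fam_eq]
      exact Pool.Agent.Y679.Cr.Gm_fin good (bdd hf) Z
    · filter_upwards [eventually_ge_atTop Z0, eventually_ge_atTop Z1] with Z u1 u2
      rw [Fam_eq]
      exact ⟨g1 f (bdd hf) Z u1, g2 f (bdd hf) Z u2⟩
  · obtain ⟨C, hC⟩ := Pool.Agent.Y679.Cr.avg good
    refine ⟨C, fun f hf Z S hS => ?_⟩
    rw [Fam_eq] at hS
    have h1 := hC f (bdd hf) Z S hS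
    rwa [← hS, Set.ncard_coe_finset] at h1
  · obtain ⟨C1, hC1⟩ := Pool.Agent.Y679.Cr.mom good hθ0 hθ
    obtain ⟨C2, hC2⟩ := Pool.Agent.Y679.Cr.hi good hθ0 hθ
    refine ⟨max (max C1 C2) 0, fun f hf Z => ⟨fun c hc k => ?_, fun k S hk hS => ?_, fun r => ?_⟩⟩
    · rw [Fam_eq] at hc
      exact (hX f (bdd hf)).2.1 c hc.1 k
    · rw [Fam_eq] at hS
      have h1 := hC1 f (bdd hf) Z k hk S hS
      rw [← hS, Set.ncard_coe_finset] at h1
      refine h1.trans (mul_le_mul_of_nonneg_right ?_ (Nat.cast_nonneg _))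
      exact (le_max_left _ _).trans (le_max_left _ _)
    · have h1 := hC2 f (bdd hf) Z r
      unfold proportion
      rw [Fam_eq]
      refine div_le_of_le_mul₀ (Nat.cast_nonneg _) (by positivity) (h1.trans ?_)
      refine mul_le_mul_of_nonneg_right (mul_le_mul_of_nonneg_right ?_ (by positivity))
        (Nat.cast_nonneg _)
      exact (le_max_right _ _).trans (le_max_left _ _)
  · obtain ⟨h1, -, h3, h4⟩ := hX f (bdd hf)
    refine ⟨?_, ?_, ?_⟩
    · have e : proportion f X = fun Z : ℕ =>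
          ((Pool.Agent.Y679.Cr.Gm Pr f Z ∩ X).ncard : ℝ) / (Pool.Agent.Y679.Cr.Gm Pr f Z).ncard := by
        funext Z
        unfold proportion
        rw [Fam_eq]
      rw [e]
      exact h1
    · intro θ hθ
      obtain ⟨C, hC⟩ := h3 θ hθ
      refine ⟨C, fun Z k S hk hS => ?_⟩
      rw [Fam_eq] at hS ⊢
      exact hC Z k hk S hS
    · intro A
      have e : ∀ r : ℕ, proportion f (High r) = fun Z : ℕ =>
          ((Pool.Agent.Y679.Cr.Gm Pr f Z ∩ Pool.Agent.Y679.Cr.Hi r).ncard : ℝ) /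
            (Pool.Agent.Y679.Cr.Gm Pr f Z).ncard := by
        intro r
        funext Z
        unfold proportion
        rw [Fam_eq]
        rfl
      simp only [e]
      exact h4 A

end Pool.Agent.Results.MP_157626_nt.AverageByConductor
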