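import Mathlib
import Pool.Agent.W307.RS.MainQ
import Pool.Agent.W307.RT.Tors
import Pool.Agent.W376.RTL.Low6

/-!
# The ranks over a multiquadratic field of the elliptic curves with torsion group `Z/2 x Z/6`

Let `F = ℚ(√d_1, …, √d_r)` be a multiquadratic field. All elliptic curves over `ℚ` whose group of
rational points has a subgroup isomorphic to `Z/2 x Z/6` are ordered by height. The average of
`2 ^ (rank E(F) / 2 ^ r)` over the curves of height at most `H` is bounded by a constant, and the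
number of these curves tends to infinity with `H`. In particular the average of the ranks of the
groups `E(F)` is bounded.
-/

set_option autoImplicit false

namespace Pool.Agent.Results.MP_157626_nt.MultiquadraticRanks

open Finset Filter

/-- the curve `y² = x³ + A x + B` over a field `K` -/
def E (K : Type) [Field K] (A B : ℤ) : WeierstrassCurve K := ⟨0, 0, 0, (A : K), (B : K)⟩

open Classical in
/-- The pairs `(A, B)` of integers such that `4 A³ + 27 B² ≠ 0`, there is no prime `p` with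
`p⁴ ∣ A` and `p⁶ ∣ B`, the height `max (4 |A|³) (27 B²)` is at most `H`, and `Z/2 x Z/6` embeds in
the group of the rational points of `y² = x³ + A x + B`. (The bounds `|A|, |B| ≤ H` follow from the
bound of the height. Every elliptic curve over `ℚ` is isomorphic to `E ℚ A B` for exactly one pair
with the first two properties.) -/
noncomputable def Fam (H : ℕ) : Finset (ℤ × ℤ) :=
  ((Icc (-(H : ℤ)) H) ×ˢ (Icc (-(H : ℤ)) H)).filter (fun c : ℤ × ℤ =>
    4 * c.1 ^ 3 + 27 * c.2 ^ 2 ≠ 0 ∧ 4 * |c.1| ^ 3 ≤ H ∧ 27 * c.2 ^ 2 ≤ H ∧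
    (∀ p : ℕ, p.Prime → ¬ ((p : ℤ) ^ 4 ∣ c.1 ∧ (p : ℤ) ^ 6 ∣ c.2)) ∧
    ∃ f : ZMod 2 × ZMod 6 →+ (E ℚ c.1 c.2).toAffine.Point, Function.Injective f)

lemma Fam_eq (H : ℕ) : Fam H = Pool.Agent.W307.RT.Cv 6 H := by
  classical
  unfold Fam Pool.Agent.W307.RT.Cv
  apply filter_congr
  intro c _
  have h : Pool.Agent.W307.RT.HasT 6 (Pool.Agent.W307.RT.Sh c.1 c.2) ↔
      ∃ f : ZMod 2 × ZMod 6 →+ (E ℚ c.1 c.2).toAffine.Point, Function.Injective f :=
    Pool.Agent.W307.RT.tors_iff
  rw [h]

open Classical in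
/-- **Theorem.** The number of the elliptic curves over `ℚ` of height at most `H` with a subgroup
`Z/2 x Z/6` tends to infinity with `H`, and for every multiquadratic field
`F = ℚ(√d_1, …, √d_r)` the average of `2 ^ (rank E(F) / 2 ^ r)` over them is bounded. -/
theorem result : Tendsto (fun H : ℕ => (Fam H).card) atTop atTop ∧
    ∀ (r : ℕ) (d : Fin r → ℤ), (∀ i, d i ≠ 0) →
    ∀ (F : Type) [Field F] [CharZero F] [Algebra ℚ F] (x : Fin r → F),
      (∀ i, x i ^ 2 = (d i : F)) → IntermediateField.adjoin ℚ (Set.range x) = ⊤ →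
    ∃ C : ℝ, ∀ H : ℕ, ∑ c ∈ Fam H,
      (2 : ℝ) ^ ((Module.finrank ℤ (E F c.1 c.2).toAffine.Point : ℝ) / 2 ^ r) ≤
        C * (Fam H).card := by
  simp only [Fam_eq]
  refine ⟨Pool.Agent.W307.RT.tendsto_of_low Pool.Agent.W376.RTL.low6, ?_⟩
  intro r d hd F _ _ _ x hx hgen
  exact Pool.Agent.W307.RS.final3_of Pool.Agent.W307.RS.mq2 F r x d hx hd hgen

end Pool.Agent.Results.MP_157626_nt.MultiquadraticRanks
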